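import Mathlib
import Pool.Agent.H964.DP.Stm

/-!
# DP PROF: the profile, by a power series in `y ^ (a + 2)`
-/

set_option autoImplicit false

namespace Pool.Agent.H627.DP

open Filter Topology

/-! ### power series with rapidly decreasing coefficients -/

/-- coefficients bounded by `C B ^ k / k!` -/
def Bd (c : ℕ → ℝ) (C B : ℝ) : Prop := ∀ k, |c k| ≤ C * (B ^ k / (k.factorial : ℝ))

/-- the coefficients of the derivative -/
def dc (c : ℕ → ℝ) (k : ℕ) : ℝ := ((k : ℝ) + 1) * c (k + 1)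

/-- the sum -/
noncomputable def sm (c : ℕ → ℝ) (t : ℝ) : ℝ := ∑' k, c k * t ^ k

theorem Bd.dc {c : ℕ → ℝ} {C B : ℝ} (h : Bd c C B) : Bd (dc c) (C * B) B := by
  intro k
  have h1 := h (k + 1)
  have h2 : (0 : ℝ) < (k.factorial : ℝ) := by exact_mod_cast k.factorial_pos
  have h3 : (0 : ℝ) < (k : ℝ) + 1 := by positivity
  rw [DP.dc, abs_mul, abs_of_pos h3]
  have h4 : C * B * (B ^ k / (k.factorial : ℝ)) =
      ((k : ℝ) + 1) * (C * (B ^ (k + 1) / ((k + 1).factorial : ℝ))) := by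
    rw [Nat.factorial_succ, pow_succ]
    push_cast
    field_simp
  rw [h4]
  exact mul_le_mul_of_nonneg_left h1 h3.le

theorem Bd.C0 {c : ℕ → ℝ} {C B : ℝ} (h : Bd c C B) : 0 ≤ C := by
  have := (abs_nonneg _).trans (h 0)
  simpa using this

theorem Bd.summable {c : ℕ → ℝ} {C B : ℝ} (h : Bd c C B) (t : ℝ) :
    Summable (fun k => c k * t ^ k) := by
  apply Summable.of_norm_bounded (g := fun k => C * ((B * |t|) ^ k / (k.factorial : ℝ)))
  · exact (Real.summable_pow_div_factorial (B * |t|)).mul_left C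
  · intro k
    rw [Real.norm_eq_abs, abs_mul, abs_pow]
    calc |c k| * |t| ^ k ≤ C * (B ^ k / (k.factorial : ℝ)) * |t| ^ k := by
          gcongr
          exact h k
      _ = C * ((B * |t|) ^ k / (k.factorial : ℝ)) := by rw [mul_pow]; ring

theorem sm_zero (c : ℕ → ℝ) : sm c 0 = c 0 := by
  rw [sm, tsum_eq_single 0]
  · simp
  · intro k hk
    rw [zero_pow hk, mul_zero]

theorem Bd.hasDerivAt {c : ℕ → ℝ} {C B : ℝ} (h : Bd c C B) (hB : 0 ≤ B) (t : ℝ) :
    HasDerivAt (sm c) (sm (DP.dc c) t) t := by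
  set R : ℝ := |t| + 1 with hR
  have hR0 : 0 < R := by positivity
  have hC := h.C0
  have hu : Summable (fun k : ℕ => (k : ℝ) * (C * (B ^ k / (k.factorial : ℝ))) * R ^ (k - 1)) := by
    rw [← summable_nat_add_iff 1]
    have e : (fun k : ℕ => (((k + 1 : ℕ) : ℝ)) * (C * (B ^ (k + 1) / ((k + 1).factorial : ℝ))) *
        R ^ (k + 1 - 1)) = fun k => C * B * ((B * R) ^ k / (k.factorial : ℝ)) := by
      funext k
      have h2 : (0 : ℝ) < (k.factorial : ℝ) := by exact_mod_cast k.factorial_pos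
      rw [Nat.factorial_succ, Nat.add_sub_cancel, mul_pow, pow_succ]
      push_cast
      field_simp
    rw [e]
    exact (Real.summable_pow_div_factorial (B * R)).mul_left _
  have key := hasDerivAt_tsum_of_isPreconnected (𝕜 := ℝ) (F := ℝ)
    (g := fun k t => c k * t ^ k) (g' := fun k t => c k * (k * t ^ (k - 1)))
    (t := Metric.ball 0 R) hu Metric.isOpen_ball (convex_ball _ _).isPreconnected
    (fun n y _ => (hasDerivAt_pow n y).const_mul (c n)) ?_
    (Metric.mem_ball_self hR0) (h.summable 0) (y := t) (by simp [hR])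
  · have e : ∑' k : ℕ, c k * (k * t ^ (k - 1)) = sm (DP.dc c) t := by
      have hs : Summable (fun k : ℕ => c k * ((k : ℝ) * t ^ (k - 1))) := by
        apply Summable.of_norm_bounded hu
        intro k
        rw [Real.norm_eq_abs, abs_mul, abs_mul, abs_pow, Nat.abs_cast]
        calc |c k| * ((k : ℝ) * |t| ^ (k - 1)) ≤
              (C * (B ^ k / (k.factorial : ℝ))) * ((k : ℝ) * R ^ (k - 1)) := by
              gcongr
              · exact h k
              · rw [hR]; linarith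
          _ = _ := by ring
      rw [hs.tsum_eq_zero_add]
      simp only [Nat.cast_zero, zero_mul, mul_zero, zero_add]
      rw [sm]
      apply tsum_congr
      intro k
      rw [DP.dc, Nat.add_sub_cancel]
      push_cast
      ring
    rw [e] at key
    exact key
  · intro k y hy
    have hy' : |y| ≤ R := by
      rw [Metric.mem_ball, dist_zero_right, Real.norm_eq_abs] at hy
      exact hy.le
    rw [Real.norm_eq_abs, abs_mul, abs_mul, abs_pow, Nat.abs_cast]
    calc |c k| * ((k : ℝ) * |y| ^ (k - 1)) ≤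
          (C * (B ^ k / (k.factorial : ℝ))) * ((k : ℝ) * R ^ (k - 1)) := by
          gcongr
          exact h k
      _ = _ := by ring

/-! ### the series -/

/-- the coefficients -/
noncomputable def co (α : ℝ) : ℕ → ℝ
  | 0 => 1
  | k + 1 => -co α k / (((k : ℝ) + 1) * α * (((k : ℝ) + 1) * α - 1))

theorem co_pos {α : ℝ} (hα : 1 < α) (k : ℕ) :
    0 < ((k : ℝ) + 1) * α * (((k : ℝ) + 1) * α - 1) := by
  have h1 : (1 : ℝ) ≤ (k : ℝ) + 1 := by
    have : (0 : ℝ) ≤ k := Nat.cast_nonneg k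
    linarith
  have h2 : 1 < ((k : ℝ) + 1) * α := by nlinarith
  have h3 : 0 < ((k : ℝ) + 1) * α - 1 := by linarith
  positivity

theorem co_bd {α : ℝ} (hα : 1 < α) : Bd (co α) 1 (1 / (α * (α - 1))) := by
  have h0 : 0 < α * (α - 1) := mul_pos (by linarith) (by linarith)
  intro k
  induction k with
  | zero => simp [co]
  | succ k ih =>
    have h1 := co_pos hα k
    have hk : (0 : ℝ) ≤ k := Nat.cast_nonneg k
    have h2 : (0 : ℝ) < (k.factorial : ℝ) := by exact_mod_cast k.factorial_pos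
    rw [co, abs_div, abs_neg, abs_of_pos h1]
    have h3 : ((k : ℝ) + 1) * (α * (α - 1)) ≤ ((k : ℝ) + 1) * α * (((k : ℝ) + 1) * α - 1) := by
      have h4 : α - 1 ≤ ((k : ℝ) + 1) * α - 1 := by nlinarith
      have h5 : 0 ≤ ((k : ℝ) + 1) * α := by positivity
      nlinarith [mul_le_mul_of_nonneg_left h4 h5]
    calc |co α k| / (((k : ℝ) + 1) * α * (((k : ℝ) + 1) * α - 1))
        ≤ (1 * ((1 / (α * (α - 1))) ^ k / (k.factorial : ℝ))) /
          (((k : ℝ) + 1) * (α * (α - 1))) := by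
          gcongr
      _ = 1 * ((1 / (α * (α - 1))) ^ (k + 1) / ((k + 1).factorial : ℝ)) := by
          rw [Nat.factorial_succ]
          push_cast
          rw [pow_succ]
          field_simp

section
variable {α : ℝ}

/-- `F` -/
noncomputable def F (α : ℝ) (t : ℝ) : ℝ := sm (co α) t

/-- `F'` -/
noncomputable def F1 (α : ℝ) (t : ℝ) : ℝ := sm (dc (co α)) t

/-- `F''` -/
noncomputable def F2 (α : ℝ) (t : ℝ) : ℝ := sm (dc (dc (co α))) t

theorem B_nn (hα : 1 < α) : 0 ≤ 1 / (α * (α - 1)) := by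
  have h0 : 0 < α * (α - 1) := mul_pos (by linarith) (by linarith)
  positivity

theorem F_der (hα : 1 < α) (t : ℝ) : HasDerivAt (F α) (F1 α t) t :=
  (co_bd hα).hasDerivAt (B_nn hα) t

theorem F1_der (hα : 1 < α) (t : ℝ) : HasDerivAt (F1 α) (F2 α t) t :=
  (co_bd hα).dc.hasDerivAt (B_nn hα) t

/-- the equation -/
theorem F_eq (hα : 1 < α) (t : ℝ) :
    α * (α - 1) * F1 α t + α ^ 2 * (t * F2 α t) = -F α t := by
  have s0 := (co_bd hα).summable t
  have s1 := (co_bd hα).dc.summable t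
  have s2 := (co_bd hα).dc.dc.summable t
  have e2 : t * F2 α t = ∑' k : ℕ, (k : ℝ) * dc (co α) k * t ^ k := by
    have hs : Summable (fun k : ℕ => (k : ℝ) * dc (co α) k * t ^ k) := by
      rw [← summable_nat_add_iff 1]
      refine (s2.mul_left t).congr (fun k => ?_)
      rw [dc]
      push_cast
      ring
    rw [hs.tsum_eq_zero_add]
    simp only [Nat.cast_zero, zero_mul, zero_add]
    rw [F2, sm, ← tsum_mul_left]
    apply tsum_congr
    intro k
    rw [dc]
    push_cast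
    ring
  have hs : Summable (fun k : ℕ => (k : ℝ) * dc (co α) k * t ^ k) := by
    rw [← summable_nat_add_iff 1]
    refine (s2.mul_left t).congr (fun k => ?_)
    rw [dc]
    push_cast
    ring
  rw [e2, F1, F, sm, sm, ← tsum_mul_left, ← tsum_mul_left, ← tsum_neg,
    ← (s1.mul_left _).tsum_add (hs.mul_left _)]
  apply tsum_congr
  intro k
  have h1 := co_pos hα k
  have e : dc (co α) k * (α * (((k : ℝ) + 1) * α - 1)) = -co α k := by
    rw [dc, co]
    have h3 : ((k : ℝ) + 1) * α * (((k : ℝ) + 1) * α - 1) ≠ 0 := h1.ne'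
    have h4 : ((k : ℝ) + 1) * (-co α k / (((k : ℝ) + 1) * α * (((k : ℝ) + 1) * α - 1))) *
        (α * (((k : ℝ) + 1) * α - 1)) =
        -co α k * ((((k : ℝ) + 1) * α * (((k : ℝ) + 1) * α - 1)) /
        (((k : ℝ) + 1) * α * (((k : ℝ) + 1) * α - 1))) := by ring
    rw [h4, div_self h3, mul_one]
  have : α * (α - 1) * (dc (co α) k * t ^ k) + α ^ 2 * ((k : ℝ) * dc (co α) k * t ^ k) =
      dc (co α) k * (α * (((k : ℝ) + 1) * α - 1)) * t ^ k := by ring
  rw [this, e]
  ring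

theorem F_cont (hα : 1 < α) : Continuous (F α) :=
  continuous_iff_continuousAt.2 fun t => (F_der hα t).continuousAt

theorem F1_cont (hα : 1 < α) : Continuous (F1 α) :=
  continuous_iff_continuousAt.2 fun t => (F1_der hα t).continuousAt

/-! ### the function `ψ` -/

/-- `ψ` -/
noncomputable def ps (α y : ℝ) : ℝ := F α (y ^ α)

/-- `ψ'` -/
noncomputable def ps1 (α y : ℝ) : ℝ := y ^ (α - 1) * (α * F1 α (y ^ α))

theorem ps_cont (hα : 1 < α) : Continuous (ps α) :=
  (F_cont hα).comp (Real.continuous_rpow_const (by linarith))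

theorem ps1_cont (hα : 1 < α) : Continuous (ps1 α) :=
  (Real.continuous_rpow_const (by linarith)).mul
    (continuous_const.mul ((F1_cont hα).comp (Real.continuous_rpow_const (by linarith))))

theorem ps_zero (hα : 1 < α) : ps α 0 = 1 := by
  rw [ps, Real.zero_rpow (by linarith), F, sm_zero, co]

theorem ps1_zero (hα : 1 < α) : ps1 α 0 = 0 := by
  rw [ps1, Real.zero_rpow (by linarith), zero_mul]

theorem ps_der (hα : 1 < α) {y : ℝ} (hy : 0 < y) : HasDerivAt (ps α) (ps1 α y) y := by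
  have h1 : HasDerivAt (fun y : ℝ => y ^ α) (α * y ^ (α - 1)) y :=
    Real.hasDerivAt_rpow_const (Or.inl hy.ne')
  have h2 := (F_der hα (y ^ α)).comp y h1
  have e : F1 α (y ^ α) * (α * y ^ (α - 1)) = ps1 α y := by
    rw [ps1]; ring
  rw [e] at h2
  exact h2

theorem ps1_der (hα : 1 < α) {y : ℝ} (hy : 0 < y) :
    HasDerivAt (ps1 α) (-(y ^ (α - 2) * ps α y)) y := by
  have h1 : HasDerivAt (fun y : ℝ => y ^ α) (α * y ^ (α - 1)) y :=
    Real.hasDerivAt_rpow_const (Or.inl hy.ne')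
  have h2 : HasDerivAt (fun y : ℝ => F1 α (y ^ α)) (F2 α (y ^ α) * (α * y ^ (α - 1))) y :=
    (F1_der hα (y ^ α)).comp y h1
  have h3 : HasDerivAt (fun y : ℝ => y ^ (α - 1)) ((α - 1) * y ^ (α - 1 - 1)) y :=
    Real.hasDerivAt_rpow_const (Or.inl hy.ne')
  have h4 := h3.mul (h2.const_mul α)
  have e : (α - 1) * y ^ (α - 1 - 1) * (α * F1 α (y ^ α)) +
      y ^ (α - 1) * (α * (F2 α (y ^ α) * (α * y ^ (α - 1)))) = -(y ^ (α - 2) * ps α y) := by
    have e1 : y ^ (α - 1) * y ^ (α - 1) = y ^ (α - 2) * y ^ α := by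
      rw [← Real.rpow_add hy, ← Real.rpow_add hy]
      congr 1
      ring
    have e2 : α - 1 - 1 = α - 2 := by ring
    have e3 := F_eq hα (y ^ α)
    rw [e2, ps]
    calc _ = (α - 1) * y ^ (α - 2) * (α * F1 α (y ^ α)) +
          α ^ 2 * F2 α (y ^ α) * (y ^ (α - 1) * y ^ (α - 1)) := by ring
      _ = y ^ (α - 2) * (α * (α - 1) * F1 α (y ^ α) + α ^ 2 * (y ^ α * F2 α (y ^ α))) := by
          rw [e1]; ring
      _ = _ := by rw [e3]; ring
  rw [e] at h4
  exact h4

/-! ### the first zero -/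

theorem anti {Y : ℝ} (hα : 1 < α) (hp : ∀ y, 0 < y → y < Y → 0 < ps α y) :
    StrictAntiOn (ps1 α) (Set.Icc 0 Y) := by
  apply strictAntiOn_of_deriv_neg (convex_Icc 0 Y) (ps1_cont hα).continuousOn
  intro y hy
  rw [interior_Icc] at hy
  rw [(ps1_der hα hy.1).deriv]
  have h1 := hp y hy.1 hy.2
  have h2 : 0 < y ^ (α - 2) := Real.rpow_pos_of_pos hy.1 _
  have := mul_pos h2 h1
  linarith

theorem exists_neg (hα : 1 < α) : ∃ y, 0 ≤ y ∧ ps α y ≤ 0 := by
  by_contra hcon
  push Not at hcon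
  have hp : ∀ Y y, 0 < y → y < Y → 0 < ps α y := fun Y y hy _ => hcon y hy.le
  have hneg : ps1 α 1 < 0 := by
    have := anti hα (hp 1) (Set.left_mem_Icc.2 zero_le_one) (Set.right_mem_Icc.2 zero_le_one)
      zero_lt_one
    rwa [ps1_zero hα] at this
  set Y : ℝ := 1 + (ps α 1 + 1) / (-ps1 α 1) with hY
  have h1 : 0 < ps α 1 := hcon 1 zero_le_one
  have h2 : 0 < (ps α 1 + 1) / (-ps1 α 1) := div_pos (by linarith) (by linarith)
  have hY1 : 1 < Y := by rw [hY]; linarith
  obtain ⟨c, hc, hc2⟩ := exists_hasDerivAt_eq_slope (ps α) (ps1 α) hY1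
    (ps_cont hα).continuousOn (fun y hy => ps_der hα (zero_lt_one.trans hy.1))
  have h3 : ps1 α c ≤ ps1 α 1 := by
    have h0 := (anti hα (hp Y)).antitoneOn
    exact h0 ⟨zero_le_one, hY1.le⟩ ⟨by linarith [hc.1], hc.2.le⟩ hc.1.le
  have h4 : ps α Y - ps α 1 = ps1 α c * (Y - 1) := by
    rw [hc2]
    field_simp [sub_ne_zero.2 hY1.ne']
  have h5 : ps1 α 1 * (Y - 1) = -(ps α 1 + 1) := by
    have h8 : -ps1 α 1 ≠ 0 := (neg_pos.2 hneg).ne'
    have h9 : (-ps1 α 1) * ((ps α 1 + 1) / (-ps1 α 1)) = ps α 1 + 1 := mul_div_cancel₀ _ h8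
    rw [hY]
    linarith
  have h6 : ps1 α c * (Y - 1) ≤ ps1 α 1 * (Y - 1) :=
    mul_le_mul_of_nonneg_right h3 (by linarith)
  have h7 := hcon Y (by linarith)
  linarith

theorem exists_first (hα : 1 < α) : ∃ y, 0 < y ∧ ps α y = 0 ∧ ∀ z, 0 ≤ z → z < y → 0 < ps α z := by
  set Z : Set ℝ := {y | 0 ≤ y ∧ ps α y ≤ 0} with hZ
  have hne : Z.Nonempty := exists_neg hα
  have hcl : IsClosed Z :=
    (isClosed_le continuous_const continuous_id).inter (isClosed_le (ps_cont hα) continuous_const)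
  have hbd : BddBelow Z := ⟨0, fun y hy => hy.1⟩
  have hmem : sInf Z ∈ Z := hcl.csInf_mem hne hbd
  have hpos : ∀ z, 0 ≤ z → z < sInf Z → 0 < ps α z := by
    intro z hz hz2
    by_contra hc
    exact absurd (csInf_le hbd ⟨hz, not_lt.1 hc⟩) (not_le.2 hz2)
  have h0 : 0 < sInf Z := by
    rcases lt_or_eq_of_le hmem.1 with h | h
    · exact h
    · exfalso
      have := hmem.2
      rw [← h, ps_zero hα] at this
      linarith
  refine ⟨sInf Z, h0, le_antisymm hmem.2 ?_, hpos⟩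
  by_contra hc
  have hc' : ps α (sInf Z) < 0 := not_le.1 hc
  have h1 : ∀ᶠ z in 𝓝 (sInf Z), ps α z < 0 :=
    (ps_cont hα).continuousAt.eventually_lt continuousAt_const hc'
  have h2 : ∀ᶠ z in 𝓝[<] (sInf Z), ps α z < 0 := h1.filter_mono nhdsWithin_le_nhds
  have h3 : ∀ᶠ z in 𝓝[<] (sInf Z), z ∈ Set.Ioo 0 (sInf Z) := Ioo_mem_nhdsLT h0
  obtain ⟨z, hz1, hz2⟩ := (h2.and h3).exists
  have := hpos z hz2.1.le hz2.2
  linarith

end

theorem t_PROF : Pool.Agent.H964.DP.S_PROF := by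
  intro a ha
  have hα : 1 < a + 2 := by linarith
  obtain ⟨y1, h1, h2, h3⟩ := exists_first hα
  have hanti := anti hα (fun y hy hy2 => h3 y hy.le hy2)
  have hs : ∀ y : ℝ, 0 < y → HasDerivAt (fun y : ℝ => y1 * y) y1 y := fun y _ => by
    simpa using (hasDerivAt_id y).const_mul y1
  refine ⟨y1 ^ (a + 2), fun y => ps (a + 2) (y1 * y), fun y => y1 * ps1 (a + 2) (y1 * y), ?_⟩
  refine ⟨Real.rpow_pos_of_pos h1 _, ?_, ?_, ?_, ?_, ?_, ?_, ?_, ?_⟩
  · exact ((ps_cont hα).comp (continuous_const.mul continuous_id)).continuousOn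
  · show ps (a + 2) (y1 * 0) = 1
    rw [mul_zero, ps_zero hα]
  · show ps (a + 2) (y1 * 1) = 0
    rw [mul_one, h2]
  · intro y hy hy1
    exact h3 _ (by positivity) (by nlinarith)
  · intro y hy _
    have h4 := (ps_der hα (mul_pos h1 hy)).comp y (hs y hy)
    rw [mul_comm] at h4
    exact h4
  · intro y hy _
    have h4 := ((ps1_der hα (mul_pos h1 hy)).comp y (hs y hy)).const_mul y1
    have e : y1 * (-((y1 * y) ^ (a + 2 - 2) * ps (a + 2) (y1 * y)) * y1) =
        -(y1 ^ (a + 2) * y ^ a * ps (a + 2) (y1 * y)) := by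
      rw [add_sub_cancel_right, Real.mul_rpow h1.le hy.le, Real.rpow_add h1, Real.rpow_two]
      ring
    rw [e] at h4
    exact h4
  · intro y hy hy1
    have h5 : ps1 (a + 2) (y1 * y) ≤ 0 := by
      have := hanti.antitoneOn (Set.left_mem_Icc.2 h1.le)
        (show y1 * y ∈ Set.Icc 0 y1 from ⟨by positivity, by nlinarith⟩) (by positivity)
      rwa [ps1_zero hα] at this
    exact mul_nonpos_of_nonneg_of_nonpos h1.le h5
  · have hc : ContinuousOn (fun t : ℝ => (a + 2) * F1 (a + 2) t) (Set.Icc 0 ((y1 * 2) ^ (a + 2))) :=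
      (continuous_const.mul (F1_cont hα)).continuousOn
    obtain ⟨M, hM⟩ := isCompact_Icc.exists_bound_of_continuousOn hc
    refine ⟨y1 ^ (a + 2) * M, fun y hy hy2 => ?_⟩
    have hyy : 0 < y1 * y := mul_pos h1 hy
    have h6 := hM ((y1 * y) ^ (a + 2)) ⟨by positivity,
      Real.rpow_le_rpow hyy.le (by nlinarith) (by linarith)⟩
    rw [Real.norm_eq_abs] at h6
    have e1 : a + 2 - 1 = a + 1 := by ring
    have e2 : y1 ^ (a + 2) = y1 * y1 ^ (a + 1) := by
      rw [show a + 2 = 1 + (a + 1) by ring, Real.rpow_add h1, Real.rpow_one]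
    show |y1 * ps1 (a + 2) (y1 * y)| ≤ _
    rw [ps1, e1, abs_mul, abs_mul, abs_of_pos h1, abs_of_pos (Real.rpow_pos_of_pos hyy _),
      Real.mul_rpow h1.le hy.le, e2]
    have h7 : 0 < y ^ (a + 1) := Real.rpow_pos_of_pos hy _
    have h8 : 0 < y1 ^ (a + 1) := Real.rpow_pos_of_pos h1 _
    calc y1 * (y1 ^ (a + 1) * y ^ (a + 1) * |(a + 2) * F1 (a + 2) ((y1 * y) ^ (a + 2))|) ≤
        y1 * (y1 ^ (a + 1) * y ^ (a + 1) * M) := by gcongr
      _ = _ := by ring

end Pool.Agent.H627.DP
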